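import Pool.Agent.helper32.QS.Spec

set_option autoImplicit false

namespace QS

theorem NIb2_Om (e : ℕ) (he : e ≠ 0) : 2 ^ Om e ≤ e := by
  have h := List.pow_card_le_prod (l := e.primeFactorsList) (n := 2)
    (fun x hx => (Nat.prime_of_mem_primeFactorsList hx).two_le)
  rw [Nat.prod_primeFactorsList he] at h
  exact h

theorem NIb2_OmLog (e : ℕ) (he : e ≠ 0) : Om e ≤ Nat.log 2 e :=
  Nat.le_log_of_pow_le (by norm_num) (NIb2_Om e he)

theorem NIb2_main (e n r s : ℕ) (hn : 2 ≤ n) (hr : r.Prime) (hs : 1 ≤ s)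
    (hB : Bd e ≤ (r ^ s) ^ (n - 2)) :
    s * (r ^ s - 1) * Bd e + 1 < (r ^ s) ^ n := by
  have h1 : s < r ^ s := Nat.lt_pow_self hr.one_lt
  obtain ⟨K, hK⟩ : ∃ K, r ^ s = K + 2 := ⟨r ^ s - 2, by omega⟩
  rw [hK] at hB h1 ⊢
  have h2 : K + 2 - 1 = K + 1 := by omega
  rw [h2]
  obtain ⟨m, rfl⟩ : ∃ m, n = m + 2 := ⟨n - 2, by omega⟩
  have h3 : m + 2 - 2 = m := by omega
  rw [h3] at hB
  have h4 : s * (K + 1) ≤ (K + 1) * (K + 1) := Nat.mul_le_mul_right _ (by omega)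
  have h5 : 0 < (K + 2) ^ m := Nat.pos_of_ne_zero (by positivity)
  calc s * (K + 1) * Bd e + 1 ≤ (K + 1) * (K + 1) * (K + 2) ^ m + 1 * (K + 2) ^ m := by
        have := Nat.mul_le_mul h4 hB
        omega
    _ = ((K + 1) * (K + 1) + 1) * (K + 2) ^ m := by ring
    _ < ((K + 2) ^ 2) * (K + 2) ^ m := by
        apply Nat.mul_lt_mul_of_pos_right _ h5
        nlinarith
    _ = (K + 2) ^ (m + 2) := by ring

theorem NIb2_crude (e n : ℕ) (he : 2 ≤ e) (hen : e ≤ n) :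
    Bd e ≤ n ^ (2 * Nat.log 2 n + 3) := by
  unfold Bd
  have h1 : Om e ≤ Nat.log 2 n := (NIb2_OmLog e (by omega)).trans (Nat.log_mono_right hen)
  calc (e ^ 2 - 1) * e ^ (2 * Om e + 1) ≤ e ^ 2 * e ^ (2 * Om e + 1) :=
        Nat.mul_le_mul_right _ (Nat.sub_le _ _)
    _ = e ^ (2 * Om e + 3) := by ring
    _ ≤ e ^ (2 * Nat.log 2 n + 3) := Nat.pow_le_pow_right (by omega) (by omega)
    _ ≤ n ^ (2 * Nat.log 2 n + 3) := Nat.pow_le_pow_left hen _

theorem NIb2_pow (m : ℕ) (hm : 5 ≤ m) : (m + 1) * (2 * m + 3) ≤ 3 * (2 ^ m - 2) := by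
  have h : (m + 1) * (2 * m + 3) + 6 ≤ 3 * 2 ^ m := by
    induction m, hm using Nat.le_induction with
    | base => norm_num
    | succ m hm ih =>
      rw [pow_succ]
      nlinarith
  omega

theorem NIb2_large (n K : ℕ) (hn : 32 ≤ n) (hK : 8 ≤ K) :
    n ^ (2 * Nat.log 2 n + 3) ≤ K ^ (n - 2) := by
  set m := Nat.log 2 n with hm
  have h5 : 5 ≤ m := by
    rw [hm]
    exact Nat.le_log_of_pow_le (by norm_num) (by norm_num; omega)
  have h1 : 2 ^ m ≤ n := Nat.pow_log_le_self 2 (by omega)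
  have h2 : n < 2 ^ (m + 1) := Nat.lt_pow_succ_log_self (by norm_num) n
  calc n ^ (2 * m + 3) ≤ (2 ^ (m + 1)) ^ (2 * m + 3) := Nat.pow_le_pow_left h2.le _
    _ = 2 ^ ((m + 1) * (2 * m + 3)) := by rw [← pow_mul]
    _ ≤ 2 ^ (3 * (2 ^ m - 2)) := Nat.pow_le_pow_right (by norm_num) (NIb2_pow m h5)
    _ = 8 ^ (2 ^ m - 2) := by rw [pow_mul]; norm_num
    _ ≤ 8 ^ (n - 2) := Nat.pow_le_pow_right (by norm_num) (by omega)
    _ ≤ K ^ (n - 2) := Nat.pow_le_pow_left hK _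

theorem NIb2_mid (n : ℕ) (h11 : 11 ≤ n) (h32 : n < 32) :
    n ^ (2 * Nat.log 2 n + 3) ≤ 11 ^ (n - 2) := by
  have hlog : Nat.log 2 n = if n < 16 then 3 else 4 := by
    split
    · exact (Nat.log_eq_iff (by norm_num)).2 ⟨by norm_num; omega, by norm_num; omega⟩
    · exact (Nat.log_eq_iff (by norm_num)).2 ⟨by norm_num; omega, by norm_num; omega⟩
  rw [hlog]
  interval_cases n <;> norm_num

theorem NIb2_mid8 (n : ℕ) (h7 : 7 ∣ n) (h11 : 11 ≤ n) (h32 : n < 32) :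
    n ^ (2 * Nat.log 2 n + 3) ≤ 8 ^ (n - 2) := by
  have hlog : Nat.log 2 n = if n < 16 then 3 else 4 := by
    split
    · exact (Nat.log_eq_iff (by norm_num)).2 ⟨by norm_num; omega, by norm_num; omega⟩
    · exact (Nat.log_eq_iff (by norm_num)).2 ⟨by norm_num; omega, by norm_num; omega⟩
  rw [hlog]
  interval_cases n <;> first | omega | norm_num

theorem NIb2_Om5 : Om 5 ≤ 1 := by
  unfold Om; rw [Nat.primeFactorsList_prime (by norm_num)]; simp

theorem NIb2_Om7 : Om 7 ≤ 1 := by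
  unfold Om; rw [Nat.primeFactorsList_prime (by norm_num)]; simp

theorem NIb2_Om9 : Om 9 ≤ 2 := by
  unfold Om; simp

theorem NIb2_Om10 : Om 10 ≤ 2 := by
  unfold Om; simp

/-- bound for `Bd` from a bound of `Om` -/
theorem NIb2_Bd (e j B : ℕ) (he : 1 ≤ e) (h : Om e ≤ j) (hB : (e ^ 2 - 1) * e ^ (2 * j + 1) ≤ B) :
    Bd e ≤ B :=
  (Nat.mul_le_mul_left _ (Nat.pow_le_pow_right he (by omega))).trans hB

theorem NIb2_OmL (e j : ℕ) (he : 1 ≤ e) (h : e < 2 ^ (j + 1)) : Om e ≤ j := by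
  have h1 := NIb2_Om e (by omega)
  by_contra hc
  have h2 : 2 ^ (j + 1) ≤ 2 ^ Om e := Nat.pow_le_pow_right (by norm_num) (by omega)
  omega

theorem NIb2_not6 (r s : ℕ) (hr : r.Prime) : r ^ s ≠ 6 := by
  intro h
  have h2 : 2 ∣ r := (Nat.prime_two.dvd_of_dvd_pow (by rw [h]; norm_num))
  have h3 : 3 ∣ r := (Nat.prime_three.dvd_of_dvd_pow (by rw [h]; norm_num))
  have e2 : 2 = r := (Nat.prime_dvd_prime_iff_eq Nat.prime_two hr).1 h2
  have e3 : 3 = r := (Nat.prime_dvd_prime_iff_eq Nat.prime_three hr).1 h3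
  omega

theorem NIb2_11 (r s : ℕ) (hr : r.Prime) (h : r ^ s = 11) : s = 1 := by
  have h11 : (11 : ℕ).Prime := by norm_num
  have h2 : 11 ∣ r := h11.dvd_of_dvd_pow (by rw [h])
  have e2 : 11 = r := (Nat.prime_dvd_prime_iff_eq h11 hr).1 h2
  subst e2
  have : (11 : ℕ) ^ s = 11 ^ 1 := by rw [h]; norm_num
  exact Nat.pow_right_injective (le_refl 2 |>.trans (by norm_num)) this

theorem NIb2_s (r s j : ℕ) (hr : r.Prime) (h : r ^ s < 2 ^ (j + 1)) : s ≤ j := by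
  by_contra hc
  have h1 : 2 ^ s ≤ r ^ s := Nat.pow_le_pow_left hr.two_le s
  have h2 : 2 ^ (j + 1) ≤ 2 ^ s := Nat.pow_le_pow_right (by norm_num) (by omega)
  omega

theorem NIb2_n5 (e r s : ℕ) (he : 2 ≤ e) (hen : e ≤ 5) (hr : r.Prime) (hs : 1 ≤ s)
    (hK : 11 ≤ r ^ s) (hm : 5 ∣ r ^ s - 1) :
    s * (r ^ s - 1) * Bd e + 1 < (r ^ s) ^ 5 := by
  have hB : Bd e ≤ 15360 := by
    interval_cases e
    · exact NIb2_Bd 2 1 _ (by norm_num) (NIb2_OmL 2 1 (by norm_num) (by norm_num)) (by norm_num)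
    · exact NIb2_Bd 3 1 _ (by norm_num) (NIb2_OmL 3 1 (by norm_num) (by norm_num)) (by norm_num)
    · exact NIb2_Bd 4 2 _ (by norm_num) (NIb2_OmL 4 2 (by norm_num) (by norm_num)) (by norm_num)
    · exact NIb2_Bd 5 1 _ (by norm_num) NIb2_Om5 (by norm_num)
  by_cases h25 : 25 ≤ r ^ s
  · apply NIb2_main e 5 r s (by norm_num) hr hs
    refine hB.trans ?_
    calc 15360 ≤ 25 ^ (5 - 2) := by norm_num
      _ ≤ (r ^ s) ^ (5 - 2) := Nat.pow_le_pow_left h25 _
  · have hcase : r ^ s = 11 ∨ r ^ s = 16 ∨ r ^ s = 21 := by omega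
    rcases hcase with h | h | h
    · have h1 := NIb2_11 r s hr h
      rw [h, h1]
      have : 1 * (11 - 1) * Bd e ≤ 1 * (11 - 1) * 15360 := Nat.mul_le_mul_left _ hB
      norm_num at this ⊢
      omega
    · have h1 := NIb2_s r s 4 hr (by rw [h]; norm_num)
      rw [h]
      have : s * (16 - 1) * Bd e ≤ 4 * (16 - 1) * 15360 :=
        Nat.mul_le_mul (Nat.mul_le_mul_right _ h1) hB
      norm_num at this ⊢
      omega
    · have h1 := NIb2_s r s 4 hr (by rw [h]; norm_num)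
      rw [h]
      have : s * (21 - 1) * Bd e ≤ 4 * (21 - 1) * 15360 :=
        Nat.mul_le_mul (Nat.mul_le_mul_right _ h1) hB
      norm_num at this ⊢
      omega

theorem NIb2_n7 (e r s : ℕ) (he : 2 ≤ e) (hen : e ≤ 7) (hr : r.Prime) (hs : 1 ≤ s)
    (hm : 7 ∣ r ^ s - 1) (hl : ∀ ℓ : ℕ, ℓ.Prime → ℓ ∣ e → ℓ ∣ r ^ s - 1) :
    s * (r ^ s - 1) * Bd e + 1 < (r ^ s) ^ 7 := by
  have h1 : s < r ^ s := Nat.lt_pow_self hr.one_lt
  have hB : Bd e ≤ 272160 := by
    interval_cases e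
    · exact NIb2_Bd 2 1 _ (by norm_num) (NIb2_OmL 2 1 (by norm_num) (by norm_num)) (by norm_num)
    · exact NIb2_Bd 3 1 _ (by norm_num) (NIb2_OmL 3 1 (by norm_num) (by norm_num)) (by norm_num)
    · exact NIb2_Bd 4 2 _ (by norm_num) (NIb2_OmL 4 2 (by norm_num) (by norm_num)) (by norm_num)
    · exact NIb2_Bd 5 1 _ (by norm_num) NIb2_Om5 (by norm_num)
    · exact NIb2_Bd 6 2 _ (by norm_num) (NIb2_OmL 6 2 (by norm_num) (by norm_num)) (by norm_num)
    · exact NIb2_Bd 7 1 _ (by norm_num) NIb2_Om7 (by norm_num)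
  by_cases h15 : 15 ≤ r ^ s
  · apply NIb2_main e 7 r s (by norm_num) hr hs
    refine hB.trans ?_
    calc 272160 ≤ 15 ^ (7 - 2) := by norm_num
      _ ≤ (r ^ s) ^ (7 - 2) := Nat.pow_le_pow_left h15 _
  · have h8 : r ^ s = 8 := by omega
    have h3 := NIb2_s r s 3 hr (by rw [h8]; norm_num)
    have h6 : e ≠ 6 := by
      rintro rfl
      have := hl 2 Nat.prime_two (by norm_num)
      rw [h8] at this
      norm_num at this
    have hB' : Bd e ≤ 16464 := by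
      have : e = 2 ∨ e = 3 ∨ e = 4 ∨ e = 5 ∨ e = 7 := by omega
      rcases this with rfl | rfl | rfl | rfl | rfl
      · exact NIb2_Bd 2 1 _ (by norm_num) (NIb2_OmL 2 1 (by norm_num) (by norm_num)) (by norm_num)
      · exact NIb2_Bd 3 1 _ (by norm_num) (NIb2_OmL 3 1 (by norm_num) (by norm_num)) (by norm_num)
      · exact NIb2_Bd 4 2 _ (by norm_num) (NIb2_OmL 4 2 (by norm_num) (by norm_num)) (by norm_num)
      · exact NIb2_Bd 5 1 _ (by norm_num) NIb2_Om5 (by norm_num)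
      · exact NIb2_Bd 7 1 _ (by norm_num) NIb2_Om7 (by norm_num)
    rw [h8]
    have : s * (8 - 1) * Bd e ≤ 3 * (8 - 1) * 16464 :=
      Nat.mul_le_mul (Nat.mul_le_mul_right _ h3) hB'
    norm_num at this ⊢
    omega

theorem NIb2_n10 (e r s : ℕ) (he : 2 ≤ e) (hen : e ≤ 10) (hr : r.Prime) (hs : 1 ≤ s)
    (hK : 11 ≤ r ^ s) :
    s * (r ^ s - 1) * Bd e + 1 < (r ^ s) ^ 10 := by
  apply NIb2_main e 10 r s (by norm_num) hr hs
  have hB : Bd e ≤ 11 ^ (10 - 2) := by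
    interval_cases e
    · exact NIb2_Bd 2 1 _ (by norm_num) (NIb2_OmL 2 1 (by norm_num) (by norm_num)) (by norm_num)
    · exact NIb2_Bd 3 1 _ (by norm_num) (NIb2_OmL 3 1 (by norm_num) (by norm_num)) (by norm_num)
    · exact NIb2_Bd 4 2 _ (by norm_num) (NIb2_OmL 4 2 (by norm_num) (by norm_num)) (by norm_num)
    · exact NIb2_Bd 5 1 _ (by norm_num) NIb2_Om5 (by norm_num)
    · exact NIb2_Bd 6 2 _ (by norm_num) (NIb2_OmL 6 2 (by norm_num) (by norm_num)) (by norm_num)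
    · exact NIb2_Bd 7 1 _ (by norm_num) NIb2_Om7 (by norm_num)
    · exact NIb2_Bd 8 3 _ (by norm_num) (NIb2_OmL 8 3 (by norm_num) (by norm_num)) (by norm_num)
    · exact NIb2_Bd 9 2 _ (by norm_num) NIb2_Om9 (by norm_num)
    · exact NIb2_Bd 10 2 _ (by norm_num) NIb2_Om10 (by norm_num)
  exact hB.trans (Nat.pow_le_pow_left hK _)

theorem NIb2 : NIb2_stmt := by
  intro p e n r s hp hp5 he hen hpn hr hs hpK hl
  have hK2 : 2 ≤ r ^ s := by
    calc 2 ≤ r := hr.two_le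
      _ = r ^ 1 := (pow_one r).symm
      _ ≤ r ^ s := Nat.pow_le_pow_right hr.pos hs
  have hKp : p + 1 ≤ r ^ s := by
    have := Nat.le_of_dvd (by omega) hpK
    omega
  have hnp : p ≤ n := Nat.le_of_dvd (by omega) hpn
  -- the lower bounds for `K`
  have hK : 11 ≤ r ^ s ∨ (r ^ s = 8 ∧ p = 7) := by
    by_cases h11 : 11 ≤ r ^ s
    · exact Or.inl h11
    · have hp6 : p ≠ 6 := by rintro rfl; revert hp; norm_num
      have hp8 : p ≠ 8 := by rintro rfl; revert hp; norm_num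
      have hp9 : p ≠ 9 := by rintro rfl; revert hp; norm_num
      have hcase : p = 5 ∨ p = 7 := by omega
      rcases hcase with rfl | rfl
      · exfalso
        have := NIb2_not6 r s hr
        omega
      · right
        exact ⟨by omega, rfl⟩
  by_cases h32 : 32 ≤ n
  · apply NIb2_main e n r s (by omega) hr hs
    exact (NIb2_crude e n he hen).trans (NIb2_large n _ h32 (by omega))
  by_cases h11 : 11 ≤ n
  · apply NIb2_main e n r s (by omega) hr hs
    refine (NIb2_crude e n he hen).trans ?_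
    rcases hK with hK | ⟨hK, hp7⟩
    · exact (NIb2_mid n h11 (by omega)).trans (Nat.pow_le_pow_left hK _)
    · subst hp7
      rw [hK]
      exact NIb2_mid8 n hpn h11 (by omega)
  -- `n ≤ 10`
  have hp6 : p ≠ 6 := by rintro rfl; revert hp; norm_num
  have hp8 : p ≠ 8 := by rintro rfl; revert hp; norm_num
  have hp9 : p ≠ 9 := by rintro rfl; revert hp; norm_num
  have hp10 : p ≠ 10 := by rintro rfl; revert hp; norm_num
  have hcase : p = 5 ∨ p = 7 := by omega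
  rcases hcase with rfl | rfl
  · have hn : n = 5 ∨ n = 10 := by omega
    have hK' : 11 ≤ r ^ s := by
      rcases hK with hK | ⟨_, h⟩
      · exact hK
      · omega
    rcases hn with rfl | rfl
    · exact NIb2_n5 e r s he hen hr hs hK' hpK
    · exact NIb2_n10 e r s he hen hr hs hK'
  · have hn : n = 7 := by omega
    subst hn
    exact NIb2_n7 e r s he hen hr hs hpK hl

end QS
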